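import Mathlib
import Pool.Agent.H88.WF3

/-!
# Small witnesses for the composite numbers with a large prime factor

Unconditionally, every large composite number `n` with a prime factor `q ≥ n^(A/(2A-1)+ε)` has a prime
witness `b ≤ 2 (log n)^A`, for which even the Fermat congruence `b^(n-1) = 1` fails; for `A = 2`, the
range of the question, these are the `n` with a prime factor `q ≥ n^(2/3+ε)`. More generally this holds
as soon as `gcd (q-1) (n-1) < q^(1-1/A-ε)` for one prime factor `q` of `n`. And for `1/2 ≤ θ ≤ 1` at most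
`O(x^(1-θ(2-2/A)+ε))` composite numbers `n ≤ x` with a prime factor `q > x^θ` have no such witness
(`O(x^(1-θ+ε))` for `A = 2`).

Proof. If `b^(n-1) = 1` modulo `n = q m` for all primes `b ≤ 2 (log n)^A` then the group generated by
these primes modulo `q` has more than `q^(1-1/A-ε)` elements (products of small primes; starting library,
`Pool.Agent.W57.SW`), and its order divides `gcd (q-1) (n-1) = gcd (q-1) (m-1)`. This is less than `m`.
For the count the large sieve (starting library, `Pool.Agent.Helper112.mult_large_sieve`) is applied to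
the characters modulo all primes `q` in `[P, 2P)` which are trivial on the small primes; there are
`(q-1)/e` of them if the group has `e` elements, and `m` is in the class of `1` modulo `e`.
-/

set_option autoImplicit false

namespace Pool.Agent.Results.MP_0b15c0_nt.LargePrimeFactor

/-- `n` fails the strong test for the base `b`: writing `n - 1 = 2 ^ j * d` with `d` odd, neither
`b ^ d = 1` nor `b ^ (2 ^ i * d) = -1` for some `i < j`, modulo `n`. -/
def IsWitness (n b : ℕ) : Prop :=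
  ∀ j d : ℕ, n - 1 = 2 ^ j * d → Odd d →
    (b : ZMod n) ^ d ≠ 1 ∧ ∀ i : ℕ, i < j → (b : ZMod n) ^ (2 ^ i * d) ≠ -1

/-- there is a prime `b ≤ 2 (log n)^A` with `b ^ (n - 1) ≠ 1` modulo `n` for which `n` fails the strong
test -/
def PrimeWitness (A : ℝ) (n : ℕ) : Prop :=
  ∃ b : ℕ, b.Prime ∧ (b : ℝ) ≤ 2 * (Real.log n) ^ A ∧ (b : ZMod n) ^ (n - 1) ≠ 1 ∧ IsWitness n b

/-- the composite numbers `n ≤ x` with a prime factor `q > x ^ θ` without such a prime `b` -/
def Exceptions (A θ : ℝ) (x : ℕ) : Set ℕ :=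
  {n : ℕ | n ≤ x ∧ 2 ≤ n ∧ ¬ n.Prime ∧ (∃ q : ℕ, q.Prime ∧ q ∣ n ∧ (x : ℝ) ^ θ < q) ∧
    ¬ PrimeWitness A n}

lemma isWitness_of {n b : ℕ} (h : (b : ZMod n) ^ (n - 1) ≠ 1) : IsWitness n b := by
  intro j d hjd _
  refine ⟨fun h1 => h ?_, fun i hi h1 => h ?_⟩
  · rw [hjd, mul_comm, pow_mul, h1, one_pow]
  · obtain ⟨k, hk⟩ := Nat.exists_eq_add_of_lt hi
    rw [hjd, hk, show 2 ^ (i + k + 1) * d = (2 ^ i * d) * 2 * 2 ^ k by ring, pow_mul, pow_mul, h1]
    simp

lemma fp_of {A : ℝ} {n : ℕ} (h2 : 2 ≤ n) (hn : ¬ n.Prime) (h : ¬ PrimeWitness A n) :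
    H88.WF.Fp A n := by
  refine ⟨h2, hn, fun b hb hb2 => ?_⟩
  by_contra h1
  exact h ⟨b, hb, hb2, h1, isWitness_of h1⟩

/-- **Small witnesses for the numbers with a large prime factor.** Let `A ≥ 2` and `ε > 0`.
(1) All prime factors `q` of all large composite `n` without a prime `b ≤ 2 (log n)^A` as in
`PrimeWitness` satisfy `gcd (q - 1) (n - 1) ≥ q^(1-1/A-ε)`.
(2) Every large composite `n` with a prime factor `q ≥ n^(A/(2A-1)+ε)` has such a prime `b`.
(3) For `1/2 ≤ θ ≤ 1` there is `K` such that for all `x ≥ 1` at most `K x^(1-θ(2-2/A)+ε)` composite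
numbers `n ≤ x` with a prime factor `q > x^θ` have no such prime `b`. -/
theorem result (A ε : ℝ) (hA : 2 ≤ A) (hε : 0 < ε) :
    (∃ N : ℕ, ∀ n : ℕ, N ≤ n → ¬ n.Prime → ¬ PrimeWitness A n → ∀ q : ℕ, q.Prime → q ∣ n →
      (q : ℝ) ^ (1 - 1 / A - ε) ≤ (Nat.gcd (q - 1) (n - 1) : ℝ)) ∧
    (∃ N : ℕ, ∀ n : ℕ, N ≤ n → ¬ n.Prime → ∀ q : ℕ, q.Prime → q ∣ n →
      (n : ℝ) ^ (A / (2 * A - 1) + ε) ≤ q → PrimeWitness A n) ∧
    (∀ θ : ℝ, 1 / 2 ≤ θ → θ ≤ 1 → ∃ K : ℝ, ∀ x : ℕ, 1 ≤ x →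
      (Exceptions A θ x).Finite ∧
        ((Exceptions A θ x).ncard : ℝ) ≤ K * (x : ℝ) ^ (1 - θ * (2 - 2 / A) + ε)) := by
  classical
  obtain ⟨N, hN⟩ := H88.WF.largest A ε hA hε
  refine ⟨⟨max N 2, fun n hn hnp hw q hq hqn => ?_⟩, ⟨max N 2, fun n hn hnp q hq hqn hqq => ?_⟩,
    fun θ h1 h2 => ?_⟩
  · exact (hN n ((le_max_left _ _).trans hn) (fp_of ((le_max_right _ _).trans hn) hnp hw) q hq hqn).1
  · by_contra hw
    have := (hN n ((le_max_left _ _).trans hn) (fp_of ((le_max_right _ _).trans hn) hnp hw) q hq hqn).2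
    linarith
  · obtain ⟨K, hK⟩ := H88.WF.count A ε θ hA hε h1 h2
    refine ⟨K, fun x hx => ?_⟩
    have h3 : Exceptions A θ x ⊆ (((Finset.Icc 1 x).filter (fun n => H88.WF.Fp A n ∧
        ∃ q : ℕ, q.Prime ∧ q ∣ n ∧ (x : ℝ) ^ θ < q) : Finset ℕ) : Set ℕ) := by
      rintro n ⟨a1, a2, a3, a4, a5⟩
      rw [Finset.mem_coe, Finset.mem_filter, Finset.mem_Icc]
      exact ⟨⟨by omega, a1⟩, fp_of a2 a3 a5, a4⟩
    refine ⟨(Finset.finite_toSet _).subset h3, le_trans ?_ (hK x hx)⟩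
    have h4 := Set.ncard_le_ncard h3 (Finset.finite_toSet _)
    rw [Set.ncard_coe_finset] at h4
    exact_mod_cast h4

end Pool.Agent.Results.MP_0b15c0_nt.LargePrimeFactor
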