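import Mathlib
import Pool.Agent.H76MW.Count
import Pool.Agent.H379R2.W.Strong
import Pool.Agent.Results.MP_0b15c0_nt.SmallWitness
import Pool.Agent.Results.MP_0b15c0_nt.SquareRootExceptions

/-!
# Moments of the least witness of the strong pseudoprimality test

Let `W n` be the least witness `b > 1` of the composite number `n`. Unconditionally, for every `k`
with `0 < k < 4 e^(3/4) + 2 e^(1/2) = 11.76...` the `k`-th moment of `W` over the composite numbers
is `2^k`, in the strong form `∑_{n ≤ x composite} |W(n)^k - 2^k| ≤ C x exp (-c √(log x))`.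

Proof. If `W n ≠ 2` then `n` is a base-2 pseudoprime, and there are at most `C x exp (-√(log x)/13)`
of these up to `x` (`Pool.Agent.H76MW.psp_count`); those with `W n ≤ 2 (log n)^A` contribute little. The
composite `n ≤ x` with `W n > 2 (log n)^A` number at most `K x^(1/A+ε)`, and each has
`W n ≤ K n^(θ+ε)` with `θ = 1/(4 e^(3/4) + 2 e^(1/2))` (`tail`).
-/

set_option autoImplicit false

namespace Pool.Agent.Results.MP_0b15c0_nt.MomentsOfLeastWitness

open Finset Real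

/-- `n` fails the strong test for the base `b`: writing `n - 1 = 2 ^ j * d` with `d` odd, neither
`b ^ d = 1` nor `b ^ (2 ^ i * d) = -1` for some `i < j`, modulo `n`. -/
def IsWitness (n b : ℕ) : Prop :=
  ∀ j d : ℕ, n - 1 = 2 ^ j * d → Odd d →
    (b : ZMod n) ^ d ≠ 1 ∧ ∀ i : ℕ, i < j → (b : ZMod n) ^ (2 ^ i * d) ≠ -1

/-- the least witness `b > 1` of `n` -/
noncomputable def W (n : ℕ) : ℕ := sInf {b : ℕ | 1 < b ∧ IsWitness n b}

/-- the composite numbers up to `x` -/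
def Comp (x : ℕ) : Finset ℕ := (Icc 2 x).filter (fun n => ¬ n.Prime)

/-- the exponent `1 / (4 e^(3/4) + 2 e^(1/2)) = 0.085...` -/
noncomputable def θ : ℝ := 1 / (4 * exp (3 / 4) + 2 * exp (1 / 2))

lemma θ_pos : 0 < θ := by unfold θ; positivity

lemma mem_Comp {x n : ℕ} : n ∈ Comp x ↔ 2 ≤ n ∧ n ≤ x ∧ ¬ n.Prime := by
  unfold Comp
  rw [mem_filter, mem_Icc, and_assoc]

lemma passes_of_not {n b : ℕ} (h : ¬ IsWitness n b) : Pool.Agent.H379R2.W.Passes n b := by
  by_contra hp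
  apply h
  refine fun j d hjd hd => ⟨fun e => ?_, fun i hi e => ?_⟩
  · exact hp ⟨j, d, hjd, hd, Or.inl e⟩
  · exact hp ⟨j, d, hjd, hd, Or.inr ⟨i, hi, e⟩⟩

/-- a prime factor of a composite number is a witness -/
lemma isWitness_minFac {n : ℕ} (hn : 2 ≤ n) : IsWitness n n.minFac := by
  by_contra h
  exact Pool.Agent.H379R2.W.not_dvd_of_passes hn (Nat.minFac_prime (by omega)) n.minFac_dvd
    (passes_of_not h) (dvd_refl _)

lemma W_mem {n : ℕ} (hn : 2 ≤ n) : 1 < W n ∧ IsWitness n (W n) :=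
  Nat.sInf_mem (s := {b : ℕ | 1 < b ∧ IsWitness n b})
    ⟨n.minFac, (Nat.minFac_prime (by omega)).one_lt, isWitness_minFac hn⟩

lemma W_le {n b : ℕ} (hb : 1 < b) (h : IsWitness n b) : W n ≤ b := Nat.sInf_le ⟨hb, h⟩

lemma W_le_self {n : ℕ} (hn : 2 ≤ n) : W n ≤ n :=
  (W_le (Nat.minFac_prime (by omega)).one_lt (isWitness_minFac hn)).trans
    (Nat.minFac_le (by omega))

lemma mem_Psp_of_W {x n : ℕ} (hn : n ∈ Comp x) (h : W n ≠ 2) : n ∈ Pool.Agent.H76MW.Psp x := by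
  obtain ⟨h2, hx, hnp⟩ := mem_Comp.1 hn
  refine Pool.Agent.H76MW.mem_Psp.2 ⟨h2, hx, hnp, ?_⟩
  have h3 : ¬ IsWitness n 2 := by
    intro hw
    have h4 := W_le (n := n) (b := 2) (by norm_num) hw
    have h5 := (W_mem h2).1
    omega
  have := Pool.Agent.H379R2.W.pow_of_passes (passes_of_not h3)
  exact_mod_cast this

lemma mem_Exceptions {A : ℝ} {x n : ℕ} (hn : n ∈ Comp x) (h : 2 * (log n) ^ A < W n) :
    n ∈ SquareRootExceptions.Exceptions A x := by
  obtain ⟨h2, hx, hnp⟩ := mem_Comp.1 hn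
  refine ⟨hx, h2, hnp, ?_⟩
  rintro ⟨b, hb1, hb2, hb3⟩
  have := W_le hb1 hb3
  have : (W n : ℝ) ≤ b := by exact_mod_cast this
  linarith

/-- the bound for the least witness, for all `n` -/
lemma W_bound (ε : ℝ) (hε : 0 < ε) : ∃ M : ℝ, 1 ≤ M ∧ ∀ n : ℕ, 2 ≤ n → ¬ n.Prime →
    (W n : ℝ) ≤ M * (n : ℝ) ^ (θ + ε) := by
  obtain ⟨n0, h0⟩ := SmallWitness.result ε hε
  refine ⟨n0 + 1, by have : (0 : ℝ) ≤ n0 := Nat.cast_nonneg _; linarith, fun n hn hnp => ?_⟩
  have hn1 : (1 : ℝ) ≤ n := by exact_mod_cast (by omega : 1 ≤ n)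
  have hn0 : (0 : ℝ) ≤ n0 := Nat.cast_nonneg _
  have hpow : (1 : ℝ) ≤ (n : ℝ) ^ (θ + ε) :=
    one_le_rpow hn1 (by have := θ_pos; linarith)
  rcases le_or_gt n0 n with h | h
  · obtain ⟨b, hb1, hb2, hb3⟩ := h0 n h hnp
    have h1 : (W n : ℝ) ≤ b := by exact_mod_cast W_le hb1 hb3
    refine (h1.trans hb2).trans ?_
    change (n : ℝ) ^ (θ + ε) ≤ _
    nlinarith
  · have h1 : (W n : ℝ) ≤ n0 := by exact_mod_cast (W_le_self hn).trans h.le
    nlinarith

/-- Part 2: the contribution of the composite numbers with `W n > 2 (log n)^A`. -/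
theorem tail (A k ε : ℝ) (hA : 2 ≤ A) (hk : 0 ≤ k) (hε : 0 < ε) : ∃ K : ℝ, 0 ≤ K ∧ ∀ x : ℕ, 1 ≤ x →
    ∑ n ∈ (Comp x).filter (fun n : ℕ => 2 * (log n) ^ A < W n), (W n : ℝ) ^ k ≤
      K * (x : ℝ) ^ (1 / A + k * θ + ε) := by
  classical
  set ε' : ℝ := ε / (k + 1) with hε'
  have hε'0 : 0 < ε' := by positivity
  obtain ⟨K, hK⟩ := SquareRootExceptions.result A ε' hA hε'0
  obtain ⟨M, hM1, hM⟩ := W_bound ε' hε'0
  refine ⟨|K| * M ^ k, by positivity, fun x hx => ?_⟩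
  have hx0 : (0 : ℝ) < x := by exact_mod_cast hx
  have hx1 : (1 : ℝ) ≤ x := by exact_mod_cast hx
  obtain ⟨hfin, hcard⟩ := hK x hx
  set F := (Comp x).filter (fun n : ℕ => 2 * (log n) ^ A < W n) with hF
  have hsub : (F : Set ℕ) ⊆ SquareRootExceptions.Exceptions A x := by
    intro n hn
    rw [mem_coe, hF, mem_filter] at hn
    exact mem_Exceptions hn.1 hn.2
  have h1 : (F.card : ℝ) ≤ |K| * (x : ℝ) ^ (1 / A + ε') := by
    have := Set.ncard_le_ncard hsub hfin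
    rw [Set.ncard_coe_finset] at this
    calc (F.card : ℝ) ≤ ((SquareRootExceptions.Exceptions A x).ncard : ℝ) := by exact_mod_cast this
      _ ≤ K * (x : ℝ) ^ (1 / A + ε') := hcard
      _ ≤ |K| * (x : ℝ) ^ (1 / A + ε') :=
          mul_le_mul_of_nonneg_right (le_abs_self K) (by positivity)
  have h2 : ∀ n ∈ F, (W n : ℝ) ^ k ≤ M ^ k * (x : ℝ) ^ (k * (θ + ε')) := by
    intro n hn
    rw [hF, mem_filter] at hn
    obtain ⟨h2, hnx, hnp⟩ := mem_Comp.1 hn.1
    have hM0 : 0 ≤ M := by linarith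
    calc (W n : ℝ) ^ k ≤ (M * (n : ℝ) ^ (θ + ε')) ^ k :=
          rpow_le_rpow (Nat.cast_nonneg _) (hM n h2 hnp) hk
      _ ≤ (M * (x : ℝ) ^ (θ + ε')) ^ k := by
          refine rpow_le_rpow (by positivity) (mul_le_mul_of_nonneg_left ?_ hM0) hk
          exact rpow_le_rpow (Nat.cast_nonneg _) (by exact_mod_cast hnx)
            (by have := θ_pos; linarith)
      _ = M ^ k * (x : ℝ) ^ (k * (θ + ε')) := by
          rw [mul_rpow hM0 (by positivity), ← rpow_mul hx0.le, mul_comm k]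
  calc ∑ n ∈ F, (W n : ℝ) ^ k ≤ ∑ n ∈ F, M ^ k * (x : ℝ) ^ (k * (θ + ε')) := sum_le_sum h2
    _ = (F.card : ℝ) * (M ^ k * (x : ℝ) ^ (k * (θ + ε'))) := by rw [sum_const, nsmul_eq_mul]
    _ ≤ |K| * (x : ℝ) ^ (1 / A + ε') * (M ^ k * (x : ℝ) ^ (k * (θ + ε'))) := by
        refine mul_le_mul_of_nonneg_right h1 ?_
        have hM0 : 0 ≤ M := by linarith
        positivity
    _ = |K| * M ^ k * ((x : ℝ) ^ (1 / A + ε') * (x : ℝ) ^ (k * (θ + ε'))) := by ring
    _ = |K| * M ^ k * (x : ℝ) ^ (1 / A + k * θ + ε) := by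
        rw [← rpow_add hx0]
        congr 2
        rw [hε']
        field_simp
        ring

/-- `x ^ (1 - δ) = O (x exp (-√(log x) / 13))` -/
lemma power_saving (δ : ℝ) (hδ : 0 < δ) (x : ℕ) (hx : 1 ≤ x) :
    (x : ℝ) ^ (1 - δ) ≤ exp (1 / δ) * (x * exp (-(sqrt (log x) / 13))) := by
  have hx0 : (0 : ℝ) < x := by exact_mod_cast hx
  have hx1 : (1 : ℝ) ≤ x := by exact_mod_cast hx
  have hlx : 0 ≤ log x := log_nonneg hx1
  have hs2 : sqrt (log x) ^ 2 = log x := sq_sqrt hlx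
  have hs0 : 0 ≤ sqrt (log x) := sqrt_nonneg _
  rw [sub_eq_add_neg, rpow_add hx0, rpow_one, rpow_def_of_pos hx0]
  have h1 : exp (log x * -δ) ≤ exp (1 / δ + -(sqrt (log x) / 13)) := by
    refine exp_le_exp.2 ?_
    set s := sqrt (log x)
    rw [← hs2]
    have h3 : 0 ≤ (δ * s - 1 / 26) ^ 2 / δ := by positivity
    have h4 : (δ * s - 1 / 26) ^ 2 / δ = δ * s ^ 2 - s / 13 + 1 / 676 / δ := by
      field_simp
      ring
    have h5 : 1 / 676 / δ ≤ 1 / δ := by gcongr; norm_num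
    nlinarith
  rw [exp_add] at h1
  nlinarith [mul_le_mul_of_nonneg_left h1 hx0.le]

/-- `(log x)^B exp (-√(log x) / 13) = O (exp (-√(log x) / 26))` -/
lemma log_power (B : ℝ) (hB : 0 ≤ B) : ∃ D : ℝ, 0 < D ∧ ∀ x : ℕ, 1 ≤ x →
    (log x) ^ B * exp (-(sqrt (log x) / 13)) ≤ D * exp (-(sqrt (log x) / 26)) := by
  have hlim : Filter.Tendsto (fun s : ℝ => s ^ (2 * B) * exp (-(1 / 26) * s)) Filter.atTop
      (nhds 0) := tendsto_rpow_mul_exp_neg_mul_atTop_nhds_zero (2 * B) (1 / 26) (by norm_num)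
  have hev : ∀ᶠ s : ℝ in Filter.atTop, s ^ (2 * B) * exp (-(1 / 26) * s) ≤ 1 :=
    (hlim.eventually (gt_mem_nhds zero_lt_one)).mono (fun s h => h.le)
  obtain ⟨s0, hs0⟩ := Filter.eventually_atTop.1 hev
  set s1 := max s0 1
  refine ⟨s1 ^ (2 * B) + 1, by positivity, fun x hx => ?_⟩
  have hx1 : (1 : ℝ) ≤ x := by exact_mod_cast hx
  have hlx : 0 ≤ log x := log_nonneg hx1
  have hs2 : sqrt (log x) ^ 2 = log x := sq_sqrt hlx
  have hsn : 0 ≤ sqrt (log x) := sqrt_nonneg _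
  have e : (log x) ^ B = sqrt (log x) ^ (2 * B) := by
    rw [rpow_mul hsn]
    congr 1
    rw [← hs2]
    norm_num
  rw [e]
  set s := sqrt (log x)
  have h1 : s ^ (2 * B) * exp (-(1 / 26) * s) ≤ s1 ^ (2 * B) + 1 := by
    rcases le_or_gt s0 s with h | h
    · have := hs0 s h
      have h2 : 0 ≤ s1 ^ (2 * B) := by positivity
      linarith
    · have h3 : s ≤ s1 := h.le.trans (le_max_left _ _)
      have h4 : s ^ (2 * B) ≤ s1 ^ (2 * B) := rpow_le_rpow hsn h3 (by positivity)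
      have h5 : exp (-(1 / 26) * s) ≤ 1 := exp_le_one_iff.2 (by nlinarith)
      have h6 : 0 ≤ s ^ (2 * B) := by positivity
      nlinarith [exp_pos (-(1 / 26) * s)]
  have h7 : exp (-(s / 13)) = exp (-(1 / 26) * s) * exp (-(s / 26)) := by
    rw [← exp_add]
    congr 1
    ring
  rw [h7, ← mul_assoc]
  exact mul_le_mul_of_nonneg_right h1 (exp_pos _).le

/-- Part 1: the moments of order `k < 1 / θ = 11.76...`. -/
theorem moments (k : ℝ) (hk : 0 < k) (hk' : k < 4 * exp (3 / 4) + 2 * exp (1 / 2)) :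
    ∃ c C : ℝ, 0 < c ∧ 0 < C ∧ ∀ x : ℕ, 1 ≤ x →
      ∑ n ∈ Comp x, |(W n : ℝ) ^ k - 2 ^ k| ≤ C * x * exp (-(c * sqrt (log x))) := by
  classical
  have hkθ : k * θ < 1 := by
    unfold θ
    rw [mul_one_div, div_lt_one (by positivity)]
    exact hk'
  have hkθ0 : 0 < k * θ := mul_pos hk θ_pos
  set δ : ℝ := (1 - k * θ) / 4 with hδ
  have hδ0 : 0 < δ := by rw [hδ]; linarith
  set A : ℝ := 1 / δ with hA
  have hA2 : 2 ≤ A := by
    rw [hA, le_div_iff₀ hδ0, hδ]
    linarith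
  have hA0 : 0 ≤ A := by linarith
  obtain ⟨K, hK0, hK⟩ := tail A k δ hA2 hk.le hδ0
  obtain ⟨C0, hC0, hC⟩ := Pool.Agent.H76MW.psp_count
  obtain ⟨D, hD0, hD⟩ := log_power (A * k) (by positivity)
  refine ⟨1 / 26, K * exp (1 / (2 * δ)) + 2 ^ k * C0 * D + 1, by norm_num, by positivity,
    fun x hx => ?_⟩
  have hx0 : (0 : ℝ) < x := by exact_mod_cast hx
  have hx1 : (1 : ℝ) ≤ x := by exact_mod_cast hx
  have hlx : 0 ≤ log x := log_nonneg hx1
  set s : ℝ := sqrt (log x) with hs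
  have hs0 : 0 ≤ s := sqrt_nonneg _
  have hpt : ∀ n ∈ Comp x, |(W n : ℝ) ^ k - 2 ^ k| ≤
      (if 2 * (log n) ^ A < W n then (W n : ℝ) ^ k else 0) +
      (if n ∈ Pool.Agent.H76MW.Psp x then 2 ^ k * (log x) ^ (A * k) else 0) := by
    intro n hn
    obtain ⟨h2, hnx, hnp⟩ := mem_Comp.1 hn
    have hW2 : (2 : ℝ) ≤ W n := by exact_mod_cast (W_mem h2).1
    have hWk : (2 : ℝ) ^ k ≤ (W n : ℝ) ^ k := rpow_le_rpow (by norm_num) hW2 hk.le
    have h2k : (0 : ℝ) < 2 ^ k := by positivity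
    rw [abs_of_nonneg (by linarith)]
    have hB : (0 : ℝ) ≤ 2 ^ k * (log x) ^ (A * k) := by positivity
    by_cases h1 : 2 * (log n) ^ A < W n
    · rw [if_pos h1]
      split_ifs <;> linarith
    · rw [if_neg h1, zero_add]
      by_cases h3 : W n = 2
      · rw [h3]
        push_cast
        rw [sub_self]
        split_ifs
        · exact hB
        · exact le_refl _
      · rw [if_pos (mem_Psp_of_W hn h3)]
        have hn1 : (1 : ℝ) ≤ n := by exact_mod_cast (by omega : 1 ≤ n)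
        have hln : 0 ≤ log n := log_nonneg hn1
        have hlnx : log n ≤ log x := log_le_log (by linarith) (by exact_mod_cast hnx)
        calc (W n : ℝ) ^ k - 2 ^ k ≤ (W n : ℝ) ^ k := by linarith
          _ ≤ (2 * (log x) ^ A) ^ k := by
              refine rpow_le_rpow (by linarith) ((not_lt.1 h1).trans ?_) hk.le
              exact mul_le_mul_of_nonneg_left (rpow_le_rpow hln hlnx hA0) (by norm_num)
          _ = 2 ^ k * (log x) ^ (A * k) := by
              rw [mul_rpow (by norm_num) (by positivity), ← rpow_mul hlx]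
  have hT := hK x hx
  have hT' : (x : ℝ) ^ (1 / A + k * θ + δ) ≤ exp (1 / (2 * δ)) * (x * exp (-(s / 13))) := by
    have e : 1 / A + k * θ + δ = 1 - 2 * δ := by
      rw [hA, one_div_one_div]
      have : k * θ = 1 - 4 * δ := by rw [hδ]; ring
      rw [this]
      ring
    rw [e]
    exact power_saving (2 * δ) (by positivity) x hx
  have hexp : exp (-(s / 13)) ≤ exp (-(s / 26)) := exp_le_exp.2 (by linarith)
  calc ∑ n ∈ Comp x, |(W n : ℝ) ^ k - 2 ^ k|
      ≤ ∑ n ∈ Comp x, ((if 2 * (log n) ^ A < W n then (W n : ℝ) ^ k else 0) +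
        (if n ∈ Pool.Agent.H76MW.Psp x then 2 ^ k * (log x) ^ (A * k) else 0)) := sum_le_sum hpt
    _ = ∑ n ∈ (Comp x).filter (fun n : ℕ => 2 * (log n) ^ A < W n), (W n : ℝ) ^ k +
        ∑ n ∈ (Comp x).filter (fun n => n ∈ Pool.Agent.H76MW.Psp x),
          2 ^ k * (log x) ^ (A * k) := by
        rw [sum_add_distrib, sum_filter, sum_filter]
    _ ≤ K * (exp (1 / (2 * δ)) * (x * exp (-(s / 13)))) +
        (C0 * x * exp (-(s / 13))) * (2 ^ k * (log x) ^ (A * k)) := by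
        refine add_le_add (hT.trans (mul_le_mul_of_nonneg_left hT' hK0)) ?_
        rw [sum_const, nsmul_eq_mul]
        refine mul_le_mul_of_nonneg_right (le_trans ?_ (hC x hx)) (by positivity)
        have : ((Comp x).filter (fun n => n ∈ Pool.Agent.H76MW.Psp x)).card ≤
            (Pool.Agent.H76MW.Psp x).card :=
          card_le_card (fun n hn => (mem_filter.1 hn).2)
        exact_mod_cast this
    _ = K * exp (1 / (2 * δ)) * x * exp (-(s / 13)) +
        2 ^ k * C0 * x * ((log x) ^ (A * k) * exp (-(s / 13))) := by ring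
    _ ≤ K * exp (1 / (2 * δ)) * x * exp (-(s / 26)) +
        2 ^ k * C0 * x * (D * exp (-(s / 26))) := by
        refine add_le_add (mul_le_mul_of_nonneg_left hexp (by positivity))
          (mul_le_mul_of_nonneg_left (hD x hx) (by positivity))
    _ = (K * exp (1 / (2 * δ)) + 2 ^ k * C0 * D) * x * exp (-(s / 26)) := by ring
    _ ≤ (K * exp (1 / (2 * δ)) + 2 ^ k * C0 * D + 1) * x * exp (-(s / 26)) := by
        refine mul_le_mul_of_nonneg_right (mul_le_mul_of_nonneg_right (by linarith) hx0.le)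
          (exp_pos _).le
    _ = _ := by
        congr 2
        ring

/-- **Moments of the least witness.** For every real `0 < k < 4 e^(3/4) + 2 e^(1/2) = 11.76...`
there are `c, C > 0` with `∑_{n ≤ x composite} |W(n)^k - 2^k| ≤ C x exp (-c √(log x))` for all
`x ≥ 1`, where `W(n)` is the least witness `> 1` of `n`. -/
theorem result (k : ℝ) (hk : 0 < k) (hk' : k < 4 * exp (3 / 4) + 2 * exp (1 / 2)) :
    ∃ c C : ℝ, 0 < c ∧ 0 < C ∧ ∀ x : ℕ, 1 ≤ x →
      ∑ n ∈ (Icc 2 x).filter (fun n => ¬ n.Prime), |(W n : ℝ) ^ k - 2 ^ k| ≤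
        C * x * exp (-(c * sqrt (log x))) :=
  moments k hk hk'

end Pool.Agent.Results.MP_0b15c0_nt.MomentsOfLeastWitness
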