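import Pool.Agent.H25WP.Main

/-!
# Small witnesses for the strong pseudoprimality test for the values of a polynomial

Let `f` be an integer polynomial of degree `d ≥ 2` which is not a rational constant times the square of a rational
polynomial, and let `A ≥ 2`. For all but `O(M^(E+ε))` of the integers `1 ≤ m ≤ M` the number `|f(m)|` is not composite or
has a witness `1 < b ≤ 2 (log |f(m)|)^A`, where `E = max ((A+1)/(2A), (d(A-1)+A+1)/(A(A+1)))`. This is less than one if and
only if `d < A + 1`. For `A = 2` (the range of the question) and quadratic polynomials the bound is `O(M^(5/6+ε))`.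

Proof. Let `n = |f(m)|` be an exception, `M/2 < m ≤ M`. It is squarefree with large prime factors, and either `(ℓ/n) = 1`
for all odd primes `ℓ ≤ y`, or `n = p k` with a prime `p` and `(ℓ/k) = 1` for all odd primes `ℓ ≤ y`, `y = (log x)^A`.
In the first case, and in the second one for fixed `p`, reciprocity gives the value of the symbol `(f(m)/ℓ)`. By Weil's
bound this leaves about half of the residue classes modulo `ℓ`, for all `ℓ ≤ y`, and the large sieve whose moduli are the
products of such primes bounds the number of such `m` (for given `p` in an arithmetic progression modulo `p`, by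
`O((M/p)^((A+1)/(2A)+ε))`). This is used for `p ≤ M^τ`. For larger primes `p` the cofactor `k` is in a set with `O(X^(1/A+ε))`
elements up to `X`, `k ≤ M^(d-τ)`; and it is not too small, as the group generated by the small primes modulo `p` has
more than `p^(1-1/A-ε)` elements and its order divides `gcd (p-1) (k-1)`.
-/

set_option autoImplicit false

namespace Pool.Agent.Results.MP_0b15c0_nt.PolynomialValues

open Polynomial

/-- `n` fails the strong test for the base `b`: writing `n - 1 = 2 ^ j * d` with `d` odd, neither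
`b ^ d = 1` nor `b ^ (2 ^ i * d) = -1` for some `i < j`, modulo `n`. -/
def IsWitness (n b : ℕ) : Prop :=
  ∀ j d : ℕ, n - 1 = 2 ^ j * d → Odd d →
    (b : ZMod n) ^ d ≠ 1 ∧ ∀ i : ℕ, i < j → (b : ZMod n) ^ (2 ^ i * d) ≠ -1

/-- `n` is composite and has no witness in `1 < b ≤ 2 (log n)^A` -/
def Undetected (A : ℝ) (n : ℕ) : Prop :=
  2 ≤ n ∧ ¬ n.Prime ∧ ¬ ∃ b : ℕ, 1 < b ∧ (b : ℝ) ≤ 2 * (Real.log n) ^ A ∧ IsWitness n b

/-- the integers `1 ≤ m ≤ M` such that `|f(m)|` is composite and has no witness `1 < b ≤ 2 (log |f(m)|)^A` -/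
def Exceptions (f : ℤ[X]) (A : ℝ) (M : ℕ) : Set ℕ :=
  {m : ℕ | 1 ≤ m ∧ m ≤ M ∧ Undetected A (f.eval (m : ℤ)).natAbs}

/-- Let `f` be an integer polynomial of degree `d ≥ 2`, not a rational constant times a square, `A ≥ 2`, `ε > 0`.
There is `K` such that for every `M` at most `K M^(E+ε)` integers `1 ≤ m ≤ M` are such that `|f(m)|` is composite and has no
witness `1 < b ≤ 2 (log |f(m)|)^A`, where `E = max ((A+1)/(2A), (d(A-1)+A+1)/(A(A+1)))`. In particular (second part), for
`d = 2` and the range `1 < b ≤ 2 (log |f(m)|)^2` of the question the bound is `K M^(5/6+ε)`. -/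
theorem result (f : ℤ[X]) (hd : 2 ≤ f.natDegree)
    (hf : ∀ (c : ℚ) (g : ℚ[X]), f.map (Int.castRingHom ℚ) ≠ C c * g ^ 2) (ε : ℝ) (hε : 0 < ε) :
    (∀ A : ℝ, 2 ≤ A → ∃ K : ℝ, ∀ M : ℕ, (Exceptions f A M).Finite ∧
      ((Exceptions f A M).ncard : ℝ) ≤ K * (M : ℝ) ^ (max ((A + 1) / (2 * A))
        (((f.natDegree : ℝ) * (A - 1) + A + 1) / (A * (A + 1))) + ε)) ∧
    (f.natDegree = 2 → ∃ K : ℝ, ∀ M : ℕ,
      ((Exceptions f 2 M).ncard : ℝ) ≤ K * (M : ℝ) ^ ((5 : ℝ) / 6 + ε)) := by
  classical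
  have key : ∀ A : ℝ, 2 ≤ A → ∃ K : ℝ, ∀ M : ℕ, (Exceptions f A M).Finite ∧
      ((Exceptions f A M).ncard : ℝ) ≤ K * (M : ℝ) ^ (max ((A + 1) / (2 * A))
        (((f.natDegree : ℝ) * (A - 1) + A + 1) / (A * (A + 1))) + ε) := by
    intro A hA
    obtain ⟨K, _, hK⟩ := Pool.Agent.H25WP.main A ε f hA hε hd hf
    refine ⟨K, fun M => ?_⟩
    have h1 : Exceptions f A M ⊆ (((Finset.Icc 1 M).filter
        (fun m : ℕ => W57.SW.Bd A (f.eval (m : ℤ)).natAbs) : Finset ℕ) : Set ℕ) := by
      intro m hm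
      obtain ⟨h1, h2, h3, h4, h5⟩ := hm
      rw [Finset.mem_coe, Finset.mem_filter, Finset.mem_Icc]
      refine ⟨⟨h1, h2⟩, h3, h4, fun b hb1 hb2 => ?_⟩
      by_contra hp
      apply h5
      refine ⟨b, hb1, hb2, fun j d hjd hd => ⟨fun e => ?_, fun i hi e => ?_⟩⟩
      · exact hp ⟨j, d, hjd, hd, Or.inl e⟩
      · exact hp ⟨j, d, hjd, hd, Or.inr ⟨i, hi, e⟩⟩
    refine ⟨(Finset.finite_toSet _).subset h1, le_trans ?_ (hK M)⟩
    have h3 := Set.ncard_le_ncard h1 (Finset.finite_toSet _)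
    rw [Set.ncard_coe_finset] at h3
    exact_mod_cast h3
  refine ⟨key, fun h2 => ?_⟩
  obtain ⟨K, hK⟩ := key 2 le_rfl
  refine ⟨K, fun M => ?_⟩
  have h3 := (hK M).2
  rw [h2] at h3
  have e : max (((2 : ℝ) + 1) / (2 * 2)) ((((2 : ℕ) : ℝ) * (2 - 1) + 2 + 1) / (2 * (2 + 1))) = 5 / 6 := by
    norm_num
  rwa [e] at h3

end Pool.Agent.Results.MP_0b15c0_nt.PolynomialValues
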