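import Mathlib
import Pool.Agent.H46SW.Count

/-!
# Small witnesses for products of two primes: `O(x^(23/48+ε))` exceptions

Unconditionally all but `O(x^(23/48+ε))` of the products `n ≤ x` of two primes have a witness
`1 < b ≤ 2 (log n)²`. (The starting result `SquareRootExceptions` has `O(x^(1/2+ε))` exceptions among all composite
numbers.)

Proof. Let `n = p q` be an exception and `g = gcd (p-1, q-1)`, `p = 1 + g a`, `q = 1 + g b`. All small primes lie in
the subgroups of order `g` modulo `p` and modulo `q`; hence `g` is at least about `√p` and `√q`. The small odd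
primes have the same symbols modulo `p` and `q`, or symbol one modulo the one of the two primes for which the power
of `2` dividing `p - 1` is larger.

* (larger sieve) Since the products of small primes form a set with more than `X^(1/2-ε)` elements up to `X`, at
  most `G^(1+ε)` primes `p ≤ x` have the property that the small primes lie in a subgroup with `g ≤ G` elements
  modulo `p`.
* (large sieve) For given `a ≠ b` at most `K^(3/4) x^ε` integers `k ≤ K` are such that the product of the symbols
  of `ℓ` modulo `1 + k a` and `1 + k b` is a given sign for each small odd prime `ℓ`: by quadratic reciprocity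
  and since `k ↦ (1 + k a) / (1 + k b)` is injective modulo `ℓ`, such `k` lie in half of the classes modulo `ℓ`,
  and Montgomery's large sieve applies with the products of small primes as moduli. The case `b = 0` treats
  the primes in the progression `1 mod a`.

If the symbols are the same and `a < b`, the number of the pairs with `g ∼ G`, `a ∼ A`, `b ∼ B` is at most
`x^ε` times the minimum of `G A^(3/4)` (choose `q`, then `a`) and `A B G^(3/4)` (choose `a`, `b`, then `g`), hence
at most `(G² A B)^(23/48) x^ε`. If `q` has symbols one then the number is at most `x^ε` times the minimum of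
`G B^(3/4)` and `(G B)^(1/2) A`, where `B ≤ G x^ε`, and this is at most `x^(7/15+ε)`.
-/

set_option autoImplicit false

namespace Pool.Agent.Results.MP_0b15c0_nt.ProductsOfTwoPrimes

/-- `n` fails the strong test for the base `b`: writing `n - 1 = 2 ^ j * d` with `d` odd, neither
`b ^ d = 1` nor `b ^ (2 ^ i * d) = -1` for some `i < j`, modulo `n`. -/
def IsWitness (n b : ℕ) : Prop :=
  ∀ j d : ℕ, n - 1 = 2 ^ j * d → Odd d →
    (b : ZMod n) ^ d ≠ 1 ∧ ∀ i : ℕ, i < j → (b : ZMod n) ^ (2 ^ i * d) ≠ -1

/-- the products `n ≤ x` of two primes without a witness in `1 < b ≤ 2 (log n)²` -/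
def Exceptions (x : ℕ) : Set ℕ :=
  {n : ℕ | n ≤ x ∧ (∃ p q : ℕ, p.Prime ∧ q.Prime ∧ n = p * q) ∧
    ¬ ∃ b : ℕ, 1 < b ∧ (b : ℝ) ≤ 2 * (Real.log n) ^ 2 ∧ IsWitness n b}

/-- For every `ε > 0` there is `K` such that for all `x ≥ 1` at most `K x^(23/48+ε)` products `n ≤ x` of two primes
have no witness `b` with `1 < b ≤ 2 (log n)²`. -/
theorem result (ε : ℝ) (hε : 0 < ε) : ∃ K : ℝ, ∀ x : ℕ, 1 ≤ x →
    (Exceptions x).Finite ∧ ((Exceptions x).ncard : ℝ) ≤ K * (x : ℝ) ^ (23 / 48 + ε) := by
  classical
  obtain ⟨K, _, hK⟩ := Pool.Agent.H46SW.semi_count ε hε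
  refine ⟨K, fun x hx => ?_⟩
  have h1 : Exceptions x ⊆ (((Finset.Icc 1 x).filter
      (fun n => Pool.Agent.W57.SW.Bd 2 n ∧ ∃ p q : ℕ, p.Prime ∧ q.Prime ∧ n = p * q) : Finset ℕ) : Set ℕ) := by
    intro n hn
    obtain ⟨h1, ⟨p, q, hp, hq, hpq⟩, h4⟩ := hn
    have h2 : 4 ≤ n := by
      rw [hpq]
      exact Nat.mul_le_mul hp.two_le hq.two_le
    have h3 : ¬ n.Prime := by
      rw [hpq]
      exact Nat.not_prime_mul hp.one_lt.ne' hq.one_lt.ne'
    rw [Finset.mem_coe, Finset.mem_filter, Finset.mem_Icc]
    refine ⟨⟨by omega, h1⟩, ⟨by omega, h3, fun b hb1 hb2 => ?_⟩, p, q, hp, hq, hpq⟩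
    rw [Real.rpow_two] at hb2
    by_contra hp
    apply h4
    refine ⟨b, hb1, hb2, fun j d hjd hd => ⟨fun e => ?_, fun i hi e => ?_⟩⟩
    · exact hp ⟨j, d, hjd, hd, Or.inl e⟩
    · exact hp ⟨j, d, hjd, hd, Or.inr ⟨i, hi, e⟩⟩
  have h2 : (Exceptions x).Finite := (Finset.finite_toSet _).subset h1
  refine ⟨h2, le_trans ?_ (hK x hx)⟩
  have h3 := Set.ncard_le_ncard h1 (Finset.finite_toSet _)
  rw [Set.ncard_coe_finset] at h3
  exact_mod_cast h3

end Pool.Agent.Results.MP_0b15c0_nt.ProductsOfTwoPrimes
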